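import Pool.Agent.DCE.Final
import Pool.Agent.DCE.GoodPP

/-!
# Uniform colours are in the extended phase, for every prime power `d ≥ 3`

The cells of the permutohedron tessellation (the Voronoi cells of `A_d^*`) have independent uniform colours in `{1, ..., d}`, and
`d ≥ 3` is a prime power. For every `ε > 0` there is `δ > 0` such that for all large `R`, with probability at least `1 - ε`, some
`d`-colour path which starts in the box `|x| ≤ R` has diameter at least `δ R`.
-/

set_option autoImplicit false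

namespace Pool.Agent.Results.MP_c50a87_pr.ExtendedPhase

open MeasureTheory Pool.Agent.DCP Pool.Agent.DCE

theorem result (d : ℕ) (hd : IsPrimePow d) (h3 : 3 ≤ d) (ν : Measure (Fin d)) [IsProbabilityMeasure ν]
    (hν : ∀ i j, ν {i} = ν {j}) (ε : ENNReal) (hε : ε ≠ 0) :
    ∃ δ : ℝ, 0 < δ ∧ ∃ R0 : ℝ, ∀ R : ℝ, R0 ≤ R →
      Measure.infinitePi (fun _ : Ast d => ν)
        {c | ¬∃ (γ : ℕ → Fin (d + 1) → ℝ) (m : ℕ),
          (Set.InjOn γ (Set.Iic m) ∧ ∀ k < m, ColEdge c (γ k) (γ (k + 1))) ∧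
          (∀ i, |γ 0 i| ≤ R) ∧ ∃ i, δ * R ≤ |γ m i - γ 0 i|} ≤ ε :=
  final_box (by omega) (good_primePow hd h3) hν hε

end Pool.Agent.Results.MP_c50a87_pr.ExtendedPhase
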