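import Pool.Agent.DCE.Final
import Pool.Agent.DCE.GoodPP

/-!
# Long `d`-colour paths have at least polynomial probability, for every prime power `d ≥ 3`

The cells of the permutohedron tessellation (the Voronoi cells of `A_d^*`) have independent uniform colours in `{1, ..., d}`, and
`d ≥ 3` is a prime power. For every edge `p q` and every `m ≥ 1` the probability that `p q` is a `d`-colour edge whose `d`-colour path
has more than `m` edges is at least `c / (m + 1) ^ (d - 1)`, with `1 / c = 2 d^d (d+1)! 5^(d-1)`.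
-/

set_option autoImplicit false

namespace Pool.Agent.Results.MP_c50a87_pr.LongPaths

open MeasureTheory Pool.Agent.DCP Pool.Agent.DCE

theorem result (d : ℕ) (hd : IsPrimePow d) (h3 : 3 ≤ d) (ν : Measure (Fin d)) [IsProbabilityMeasure ν]
    (hν : ∀ i j, ν {i} = ν {j}) (p q : Fin (d + 1) → ℝ) (hp : IsVertex p) (hq : IsVertex q)
    (hpq : (cellsAt p ∩ cellsAt q).ncard = d) (m : ℕ) (hm : 1 ≤ m) :
    1 ≤ (d : ENNReal) ^ d * (2 * (d + 1).factorial * (5 * (m + 1)) ^ (d - 1)) *
      Measure.infinitePi (fun _ : Ast d => ν)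
        {c | ∃ γ : ℕ → Fin (d + 1) → ℝ, γ 0 = p ∧ γ 1 = q ∧
          (Set.InjOn γ (Set.Iic m) ∧ ∀ k < m, ColEdge c (γ k) (γ (k + 1)))} :=
  final_edge (by omega) (good_primePow hd h3) hν hp hq hpq hm

end Pool.Agent.Results.MP_c50a87_pr.LongPaths
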