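import Pool.Agent.DCP.Null
import Pool.Agent.DCP.Ray
import Pool.Agent.DCP.Birk

/-!
# Infinite d-colour paths oscillate and have zero speed

The cells of the permutohedron tessellation (the Voronoi cells of `A_d^*`, `d ≥ 2`) have independent
colours in `{1, ..., d}` with a common law `ν` which charges every colour. Almost surely every infinite
`d`-colour path `γ 0, γ 1, ...` (distinct vertices of the tessellation, consecutive ones joined by
`d`-colour edges) satisfies `γ k / k → 0`, and every integer linear form `n`, `∑ n i = 0`, with `n i < 0` for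
`i ≠ a` and `n b = n b'` for some distinct `b, b' ≠ a` (in particular every coordinate) is unbounded above
and below along `γ`; so no infinite path stays in a half space of this kind.
-/

set_option autoImplicit false

namespace Pool.Agent.Results.MP_c50a87_pr.OscillationZeroSpeed

open MeasureTheory Filter Topology Pool.Agent.DCP

theorem result (d : ℕ) (hd : 2 ≤ d) (ν : Measure (Fin d)) [IsProbabilityMeasure ν]
    (hν : ∀ i, ν {i} ≠ 0) :
    ∀ᵐ c ∂(Measure.infinitePi (fun _ : Ast d => ν)),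
      ∀ γ : ℕ → (Fin (d + 1) → ℝ), Function.Injective γ →
        (∀ k, ColEdge c (γ k) (γ (k + 1))) →
        (∀ (n : Fin (d + 1) → ℤ) (a b b' : Fin (d + 1)), ∑ i, n i = 0 →
          (∀ i, i ≠ a → n i < 0) → b ≠ a → b' ≠ a → b ≠ b' → n b = n b' →
          ∀ M : ℝ, (∃ᶠ k in atTop, M < ∑ i, n i * γ k i) ∧
            ∃ᶠ k in atTop, ∑ i, n i * γ k i < M) ∧
        Tendsto (fun k : ℕ => (k : ℝ)⁻¹ • γ k) atTop (𝓝 0) := by
  -- almost surely there is no event, for every direction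
  have h1 : ∀ᵐ c ∂(mu (Ast d) ν), ∀ (n : Fin (d + 1) → ℤ) (a b b' : Fin (d + 1)),
      ∑ i, n i = 0 → (∀ i, i ≠ a → n i < 0) → b ≠ a → b' ≠ a → b ≠ b' → n b = n b' →
      (∀ s l, ¬Ev (AD d) (psiN n) c s l) ∧ ∀ s l, ¬Dv (AD d) (psiN n) c s l := by
    rw [ae_all_iff]
    intro n
    rw [ae_all_iff]
    intro a
    rw [ae_all_iff]
    intro b
    rw [ae_all_iff]
    intro b'
    by_cases h : ∑ i, n i = 0 ∧ (∀ i, i ≠ a → n i < 0) ∧ b ≠ a ∧ b' ≠ a ∧ b ≠ b' ∧ n b = n b'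
    · obtain ⟨e1, e2, e3, e4, e5, e6⟩ := h
      exact (no_events hd hν (dir_psiN e1 e2 e3 e4 e5 e6)).mono fun c hc _ _ _ _ _ _ => hc
    · exact Eventually.of_forall fun c e1 e2 e3 e4 e5 e6 => (h ⟨e1, e2, e3, e4, e5, e6⟩).elim
  have h2 := (mu_equiv ν (Equiv.neg (Ast d))).quasiMeasurePreserving.ae h1
  have h3 : ∀ᵐ c ∂(mu (Ast d) ν), ∀ i : Fin (d + 1), ∀ s : St d (Ast d), ∃ q : ℝ,
      Tendsto (fun N : ℕ => (N : ℝ)⁻¹ * ∑ k ∈ Finset.range N,
        ((if letter ((Phi (AD d) c ^ k) s) 0 = i then (1 : ℝ) else 0) -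
        (if letter ((Phi (AD d) c ^ k) s) d = i then (1 : ℝ) else 0))) atTop (𝓝 q) := by
    rw [ae_all_iff]
    intro i
    exact birk_all ν i
  show ∀ᵐ c ∂(mu (Ast d) ν), _
  filter_upwards [h1, h2, h3] with c hc1 hc2 hc3 γ hi he
  have hineg : Function.Injective (fun k => -γ k) := fun k k' h => hi (neg_injective h)
  have up : ∀ (n : Fin (d + 1) → ℤ) (a b b' : Fin (d + 1)), ∑ i, n i = 0 →
      (∀ i, i ≠ a → n i < 0) → b ≠ a → b' ≠ a → b ≠ b' → n b = n b' →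
      ∀ M : ℝ, ∃ k, M < ∑ i, n i * γ k i := by
    intro n a b b' e1 e2 e3 e4 e5 e6 M
    obtain ⟨f1, f2⟩ := hc1 n a b b' e1 e2 e3 e4 e5 e6
    exact ray_up (by omega) e1 f1 f2 hi he M
  have dn : ∀ (n : Fin (d + 1) → ℤ) (a b b' : Fin (d + 1)), ∑ i, n i = 0 →
      (∀ i, i ≠ a → n i < 0) → b ≠ a → b' ≠ a → b ≠ b' → n b = n b' →
      ∀ M : ℝ, ∃ k, M < -∑ i, n i * γ k i := by
    intro n a b b' e1 e2 e3 e4 e5 e6 M
    obtain ⟨f1, f2⟩ := hc2 n a b b' e1 e2 e3 e4 e5 e6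
    obtain ⟨k, hk⟩ := ray_up (by omega) e1 f1 f2 hineg (fun k => ColEdge_neg (he k)) M
    refine ⟨k, hk.trans_eq ?_⟩
    rw [← Finset.sum_neg_distrib]
    refine Finset.sum_congr rfl fun i _ => ?_
    rw [Pi.neg_apply]
    ring
  refine ⟨?_, ?_⟩
  · intro n a b b' e1 e2 e3 e4 e5 e6 M
    refine ⟨freq_of_exists (up n a b b' e1 e2 e3 e4 e5 e6) M, ?_⟩
    refine (freq_of_exists (dn n a b b' e1 e2 e3 e4 e5 e6) (-M)).mono fun k hk => ?_
    linarith
  · have hnn : ∀ a : Fin (d + 1), ∃ b b' : Fin (d + 1), b ≠ a ∧ b' ≠ a ∧ b ≠ b' ∧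
        nn a b = nn a b' ∧ ∀ i, i ≠ a → nn a i < 0 := by
      intro a
      obtain ⟨b, b', e1, e2, e3⟩ := exists_two hd a
      refine ⟨b, b', e1, e2, e3, ?_, fun i hi => ?_⟩
      · rw [nn, nn, if_neg e1, if_neg e2]
      · rw [nn, if_neg hi]
        norm_num
    refine speed hd hi he hc3 (fun a M => ?_) (fun a M => ?_)
    · obtain ⟨b, b', e1, e2, e3, e4, e5⟩ := hnn a
      exact up (nn a) a b b' (nn_sum a) e5 e1 e2 e3 e4 M
    · obtain ⟨b, b', e1, e2, e3, e4, e5⟩ := hnn a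
      exact dn (nn a) a b b' (nn_sum a) e5 e1 e2 e3 e4 M

end Pool.Agent.Results.MP_c50a87_pr.OscillationZeroSpeed
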